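import Pool.Agent.Lib.helper28.ZpD

namespace Pool.Agent.H.MP_2806c7_co

open Pool.Agent.Lib.helper28.Zp Finset

variable {n p : ℕ} [NeZero p]

/-- left end of the `i`-th interval -/
noncomputable def lo (x : E n p) (i : ℕ) : ℝ :=
  ∑ i' : Fin (n + 1), if (i' : ℕ) < i then ∑ c, x (i', c) else 0

/-- the amount of `dG` in the intervals labelled `c` -/
noncomputable def T (G : ℝ → ℝ) (x : E n p) (c : ZMod p) : ℝ :=
  ∑ i : Fin (n + 1), (G (lo x i + x (i, c)) - G (lo x i))

theorem lo_zero (x : E n p) : lo x 0 = 0 := by simp [lo]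

theorem lo_succ (x : E n p) (i : Fin (n + 1)) : lo x (i + 1) = lo x i + ∑ c, x (i, c) := by
  unfold lo
  have : ∀ i' : Fin (n + 1), (if (i' : ℕ) < i + 1 then ∑ c, x (i', c) else 0) =
      (if (i' : ℕ) < i then ∑ c, x (i', c) else 0) + if i' = i then ∑ c, x (i', c) else 0 := by
    intro i'
    by_cases h1 : i' = i
    · subst h1; simp
    · have : (i' : ℕ) ≠ i := fun e => h1 (Fin.ext e)
      by_cases h2 : (i' : ℕ) < i
      · simp [h1, h2, Nat.lt_succ_of_lt h2]
      · have : ¬ (i' : ℕ) < i + 1 := by omega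
        simp [h1, h2, this]
  simp only [this, sum_add_distrib, sum_ite_eq', mem_univ, if_true]

theorem lo_last {x : E n p} (hx : x ∈ S n p n) : lo x (n + 1) = 1 := by
  unfold lo
  rw [← hx.2.1, Fintype.sum_prod_type]
  exact sum_congr rfl fun i _ => if_pos i.2

theorem lo_mono {x : E n p} (hx : x ∈ S n p n) : Monotone (lo x) := by
  intro a b hab
  unfold lo
  refine sum_le_sum fun i _ => ?_
  have : 0 ≤ ∑ c, x (i, c) := sum_nonneg fun c _ => hx.1 _
  split_ifs with h1 h2
  · exact le_rfl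
  · omega
  · exact this
  · exact le_rfl

theorem one_c {x : E n p} (hx : x ∈ S n p n) (i : Fin (n + 1)) :
    ∃ c0, (∀ c, c ≠ c0 → x (i, c) = 0) ∧ lo x (i + 1) = lo x i + x (i, c0) := by
  have : ∃ c0, ∀ c, c ≠ c0 → x (i, c) = 0 := by
    by_cases h : ∀ c, x (i, c) = 0
    · exact ⟨0, fun c _ => h c⟩
    · push Not at h
      obtain ⟨c0, h0⟩ := h
      exact ⟨c0, fun c hc => (mul_eq_zero.1 (hx.2.2.1 i c c0 hc)).resolve_right h0⟩
  obtain ⟨c0, h0⟩ := this
  refine ⟨c0, h0, ?_⟩
  rw [lo_succ, sum_eq_single c0 (fun c _ hc => h0 c hc) (by simp)]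

theorem sum_T (G : ℝ → ℝ) {x : E n p} (hx : x ∈ S n p n) : ∑ c, T G x c = G 1 - G 0 := by
  unfold T
  rw [sum_comm]
  have : ∀ i : Fin (n + 1), ∑ c, (G (lo x i + x (i, c)) - G (lo x i)) =
      G (lo x (i + 1)) - G (lo x i) := by
    intro i
    obtain ⟨c0, h0, h1⟩ := one_c hx i
    rw [sum_eq_single c0 (fun c _ hc => by simp [h0 c hc]) (by simp), h1]
  simp only [this]
  rw [Fin.sum_univ_eq_sum_range (fun i => G (lo x (i + 1)) - G (lo x i)) (n + 1),
    sum_range_sub (fun i => G (lo x i)), lo_last hx, lo_zero]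

theorem lo_sh (x : E n p) (i : ℕ) : lo (sh x) i = lo x i := by
  unfold lo sh
  refine sum_congr rfl fun i' _ => ?_
  split_ifs
  · exact Equiv.sum_comp (Equiv.subRight (1 : ZMod p)) fun c => x (i', c)
  · rfl

theorem T_sh (G : ℝ → ℝ) (x : E n p) (c : ZMod p) : T G (sh x) c = T G x (c - 1) := by
  unfold T
  simp only [lo_sh]
  rfl

theorem lo_cont (i : ℕ) : Continuous fun x : E n p => lo x i := by
  unfold lo
  refine continuous_finsetSum _ fun i' _ => ?_
  split_ifs <;> fun_prop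

theorem T_cont {G : ℝ → ℝ} (hG : Continuous G) (c : ZMod p) :
    Continuous fun x : E n p => T G x c := by
  unfold T
  refine continuous_finsetSum _ fun i _ => ?_
  exact (hG.comp ((lo_cont i).add (continuous_apply _))).sub (hG.comp (lo_cont i))

theorem T_nonneg {G : ℝ → ℝ} (hG : Monotone G) {x : E n p} (hx : x ∈ S n p n) (c : ZMod p) :
    0 ≤ T G x c :=
  sum_nonneg fun _ _ => sub_nonneg.2 (hG (le_add_of_nonneg_right (hx.1 _)))

/-- distribution function of cookie `k` out of `N` -/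
noncomputable def cl (N k : ℕ) (u : ℝ) : ℝ := min (max (N * u - k) 0) 1

theorem cl_cont (N k : ℕ) : Continuous (cl N k) := by unfold cl; fun_prop

theorem cl_mono (N k : ℕ) : Monotone (cl N k) := fun a b h =>
  min_le_min (max_le_max (by have : (0 : ℝ) ≤ N := Nat.cast_nonneg N; nlinarith) le_rfl) le_rfl

theorem cl_hi {N k : ℕ} {u : ℝ} (h : (k : ℝ) + 1 ≤ N * u) : cl N k u = 1 :=
  min_eq_right (le_max_of_le_left (by linarith))

theorem cl_lo {N k : ℕ} {u : ℝ} (h : N * u ≤ (k : ℝ)) : cl N k u = 0 := by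
  unfold cl
  rw [max_eq_right (by linarith), min_eq_left zero_le_one]

theorem sum_cl {N k : ℕ} (hk : k < N) {x : E n p} (hx : x ∈ S n p n) :
    ∑ c, T (cl N k) x c = 1 := by
  have : (k : ℝ) + 1 ≤ N := by exact_mod_cast hk
  rw [sum_T _ hx, cl_hi (by linarith), cl_lo (by simp), sub_zero]

theorem full_of {N k : ℕ} (hk : k < N) {x : E n p} (hx : x ∈ S n p n)
    (h : ∀ i < n, ¬ ((k : ℝ) < N * lo x (i + 1) ∧ N * lo x (i + 1) < (k : ℝ) + 1)) :
    ∃ c, T (cl N k) x c = 1 := by
  classical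
  have hN : (k : ℝ) + 1 ≤ N := by exact_mod_cast hk
  let P : ℕ → Prop := fun i => N * lo x i ≤ (k : ℝ)
  have P0 : P 0 := by simp [P, lo_zero]
  have hi : Nat.findGreatest P n ≤ n := Nat.findGreatest_le n
  have hP : P (Nat.findGreatest P n) := Nat.findGreatest_spec (Nat.zero_le n) P0
  set i := Nat.findGreatest P n with hdef
  have h2 : (k : ℝ) + 1 ≤ N * lo x (i + 1) := by
    rcases hi.eq_or_lt with e | e
    · rw [e, lo_last hx]; linarith
    · have : ¬ P (i + 1) := Nat.findGreatest_is_greatest (by omega) e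
      have h3 := h i e
      simp only [P, not_le] at this
      by_contra h4
      exact h3 ⟨this, not_le.1 h4⟩
  obtain ⟨c0, -, h1⟩ := one_c hx ⟨i, by omega⟩
  refine ⟨c0, le_antisymm ?_ ?_⟩
  · rw [← sum_cl hk hx]
    exact single_le_sum (fun c _ => T_nonneg (cl_mono N k) hx c) (mem_univ c0)
  · have := single_le_sum (f := fun i' : Fin (n + 1) =>
      cl N k (lo x i' + x (i', c0)) - cl N k (lo x i')) (fun i' _ => sub_nonneg.2
        (cl_mono N k (le_add_of_nonneg_right (hx.1 _)))) (mem_univ ⟨i, by omega⟩)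
    simp only at this h1
    rw [← h1, cl_hi h2, cl_lo hP, sub_zero] at this
    exact this

theorem cut_le {N : ℕ} {x : E n p} (hx : x ∈ S n p n) :
    (univ.filter fun k : Fin N => ∀ c, T (cl N k) x c ≠ 1).card ≤ n := by
  classical
  rw [← card_map Fin.valEmbedding]
  refine (card_le_card (t := (range n).image fun i => ⌊N * lo x (i + 1)⌋₊) ?_).trans
    (card_image_le.trans (card_range n).le)
  intro k' hk'
  obtain ⟨k, hk, rfl⟩ := mem_map.1 hk'
  have hk := (mem_filter.1 hk).2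
  have : ∃ i < n, ((k : ℕ) : ℝ) < N * lo x (i + 1) ∧ N * lo x (i + 1) < ((k : ℕ) : ℝ) + 1 := by
    by_contra h
    obtain ⟨c, hc⟩ := full_of k.2 hx fun i hi h' => h ⟨i, hi, h'⟩
    exact hk c hc
  obtain ⟨i, hi, h1, h2⟩ := this
  refine mem_image.2 ⟨i, mem_range.2 hi, ?_⟩
  exact (Nat.floor_eq_iff ((Nat.cast_nonneg _).trans h1.le)).2 ⟨h1.le, h2⟩

theorem lp_prime (hp : p.Prime) {m N q : ℕ} (hN : p * q + m * (p - 1) ≤ N)
    (w : Fin N → Fin m → ℝ) : ∃ X : Fin N → ZMod p → ℝ, (∀ k c, 0 ≤ X k c) ∧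
      (∀ k, ∑ c, X k c = 1) ∧ (∀ j c c', ∑ k, X k c * w k j = ∑ k, X k c' * w k j) ∧
      ∀ c, q ≤ (univ.filter fun k => X k c = 1).card := by
  classical
  let D := (m + 1) * (p - 1)
  let φ : E D p → ZMod p → ℝ := fun x c =>
    ∏ Q ∈ powersetCard q (univ : Finset (Fin N)), ∑ k ∈ Q, (1 - T (cl N k) x c)
  let f : E D p → Fin (m + 1) → ZMod p → ℝ := fun x j c =>
    if h : (j : ℕ) < m then ∑ k : Fin N, T (cl N k) x c * w k ⟨j, h⟩ else φ x c
  obtain ⟨x, hx, hf⟩ := bu hp (m := m + 1) (n := D) le_rfl f (by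
      refine Continuous.continuousOn (continuous_pi fun j => continuous_pi fun c => ?_)
      simp only [f, φ]
      split_ifs
      · exact continuous_finsetSum _ fun k _ => (T_cont (cl_cont N k) c).mul continuous_const
      · exact continuous_finsetProd _ fun Q _ => continuous_finsetSum _ fun k _ =>
          continuous_const.sub (T_cont (cl_cont N k) c)) (by
      intro x _ j c
      simp only [f, φ, T_sh])
  have h0 : ∀ (k : Fin N) c, 0 ≤ T (cl N k) x c := fun k c => T_nonneg (cl_mono N k) hx c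
  have h1 : ∀ k : Fin N, ∑ c, T (cl N k) x c = 1 := fun k => sum_cl k.2 hx
  have h2 : ∀ (k : Fin N) c, T (cl N k) x c ≤ 1 := fun k c => by
    rw [← h1 k]; exact single_le_sum (fun c _ => h0 k c) (mem_univ c)
  refine ⟨fun k c => T (cl N k) x c, h0, h1, fun j c c' => ?_, ?_⟩
  · have := hf j.castSucc c c'
    simpa [f] using this
  have hφ : ∀ c c', φ x c = φ x c' := fun c c' => by
    have := hf (Fin.last m) c c'
    simpa [f] using this
  have key : ∀ c, φ x c = 0 ↔ q ≤ (univ.filter fun k : Fin N => T (cl N k) x c = 1).card := by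
    intro c
    simp only [φ, prod_eq_zero_iff]
    constructor
    · rintro ⟨Q, hQ, hs⟩
      rw [← (mem_powersetCard.1 hQ).2]
      refine card_le_card fun k hk => mem_filter.2 ⟨mem_univ _, ?_⟩
      have := (sum_eq_zero_iff_of_nonneg fun k _ => sub_nonneg.2 (h2 k c)).1 hs k hk
      linarith
    · intro hq
      obtain ⟨Q, hQ, hc⟩ := exists_subset_card_eq hq
      refine ⟨Q, mem_powersetCard.2 ⟨subset_univ _, hc⟩, sum_eq_zero fun k hk => ?_⟩
      rw [(mem_filter.1 (hQ hk)).2, sub_self]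
  by_contra hne
  push Not at hne
  obtain ⟨c0, hc0⟩ := hne
  have hall : ∀ c, (univ.filter fun k : Fin N => T (cl N k) x c = 1).card ≤ q - 1 := by
    intro c
    have : ¬ q ≤ (univ.filter fun k : Fin N => T (cl N k) x c = 1).card := fun h =>
      not_le.2 hc0 ((key c0).1 ((hφ c0 c).trans ((key c).2 h)))
    omega
  have hsub : (univ : Finset (Fin N)) ⊆ (univ.filter fun k : Fin N => ∀ c, T (cl N k) x c ≠ 1) ∪
      univ.biUnion fun c => univ.filter fun k : Fin N => T (cl N k) x c = 1 := by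
    intro k _
    by_cases h : ∀ c, T (cl N k) x c ≠ 1
    · exact mem_union_left _ (mem_filter.2 ⟨mem_univ _, h⟩)
    · push Not at h
      obtain ⟨c, hc⟩ := h
      exact mem_union_right _ (mem_biUnion.2 ⟨c, mem_univ _, mem_filter.2 ⟨mem_univ _, hc⟩⟩)
  have e1 := (card_le_card hsub).trans (card_union_le _ _)
  have e2 := cut_le (N := N) hx
  have e3 := card_biUnion_le_card_mul univ
    (fun c => univ.filter fun k : Fin N => T (cl N k) x c = 1) (q - 1) fun c _ => hall c
  rw [card_univ, ZMod.card] at e3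
  rw [card_univ, Fintype.card_fin] at e1
  obtain ⟨q', rfl⟩ : ∃ q', q = q' + 1 := ⟨q - 1, by omega⟩
  obtain ⟨p', hp'⟩ : ∃ p', p = p' + 1 := ⟨p - 1, by have := hp.pos; omega⟩
  have e4 : D = m * (p - 1) + p' := by simp only [D]; rw [hp']; simp; ring
  have e5 : p * (q' + 1) = p * q' + p' + 1 := by rw [mul_add, mul_one]; omega
  simp only [Nat.add_sub_cancel] at e3
  omega

end Pool.Agent.H.MP_2806c7_co
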