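import Pool.Agent.H.MP_2806c7_co.A

namespace Pool.Agent.H.MP_2806c7_co

open Finset

/-- a fair fractional distribution in which every child has at least `q` full cookies -/
def Good {ι κ : Type} [Fintype ι] [Fintype κ] {m : ℕ} (w : ι → Fin m → ℝ) (q : ℕ)
    (X : ι → κ → ℝ) : Prop :=
  (∀ k c, 0 ≤ X k c) ∧ (∀ k, ∑ c, X k c = 1) ∧
    (∀ j c, (Fintype.card κ : ℝ) * ∑ k, X k c * w k j = ∑ k, w k j) ∧
    ∀ c, q ≤ (univ.filter fun k => X k c = 1).card

variable {m : ℕ}

theorem Good.equiv {ι ι' κ κ' : Type} [Fintype ι] [Fintype κ] [Fintype ι'] [Fintype κ']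
    (e : ι' ≃ ι) (e' : κ' ≃ κ) {w : ι' → Fin m → ℝ} {q : ℕ} {X : ι → κ → ℝ}
    (h : Good (fun k => w (e.symm k)) q X) : Good w q fun k c => X (e k) (e' c) := by
  obtain ⟨h0, h1, h2, h3⟩ := h
  refine ⟨fun k c => h0 _ _, fun k => ?_, fun j c => ?_, fun c => ?_⟩
  · rw [← h1 (e k)]; exact Equiv.sum_comp e' (X (e k))
  · have := h2 j (e' c)
    rw [← Equiv.sum_comp e, ← Equiv.sum_comp e fun k => w (e.symm k) j] at this
    rw [Fintype.card_congr e']
    simpa using this
  · refine (h3 (e' c)).trans (card_le_card_of_injOn e.symm (fun k hk => ?_) e.symm.injective.injOn)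
    simpa using hk

theorem good_prime {p : ℕ} (hp : p.Prime) {ι : Type} [Fintype ι] (w : ι → Fin m → ℝ) {q : ℕ}
    (h : p * q + m * (p - 1) ≤ Fintype.card ι) : ∃ X : ι → Fin p → ℝ, Good w q X := by
  have : NeZero p := ⟨hp.ne_zero⟩
  let e := Fintype.equivFin ι
  obtain ⟨X, h0, h1, h2, h3⟩ := lp_prime hp h fun k => w (e.symm k)
  have hG : Good (fun k => w (e.symm k)) q X := by
    refine ⟨h0, h1, fun j c => ?_, h3⟩
    have : ∑ c', ∑ k, X k c' * w (e.symm k) j = ∑ k, w (e.symm k) j := by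
      rw [sum_comm]
      exact sum_congr rfl fun k _ => by rw [← sum_mul, h1, one_mul]
    rw [← this, sum_congr rfl fun c' _ => h2 j c' c, sum_const, card_univ, nsmul_eq_mul]
  exact ⟨_, hG.equiv e (Fintype.equivOfCardEq (by simp))⟩

theorem good_mul {ι κ κ' : Type} [Fintype ι] [Fintype κ] [Fintype κ'] [Nonempty κ']
    {w : ι → Fin m → ℝ} {q q' : ℕ} {Y : ι → κ → ℝ} (hY : Good w q' Y)
    (Z : ∀ g : κ, {k // Y k g = 1} → κ' → ℝ) (hZ : ∀ g, Good (fun k => w k.1) q (Z g)) :
    ∃ X : ι → κ × κ' → ℝ, Good w q X := by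
  classical
  obtain ⟨h0, h1, h2, -⟩ := hY
  have hr : (0 : ℝ) < Fintype.card κ' := by exact_mod_cast Fintype.card_pos
  refine ⟨fun k g => if h : Y k g.1 = 1 then Z g.1 ⟨k, h⟩ g.2 else Y k g.1 / Fintype.card κ',
    fun k g => ?_, fun k => ?_, fun j g => ?_, fun g => ?_⟩
  · dsimp only
    split_ifs
    · exact (hZ _).1 _ _
    · exact div_nonneg (h0 _ _) hr.le
  · rw [Fintype.sum_prod_type]
    refine (sum_congr rfl fun g _ => ?_).trans (h1 k)
    by_cases h : Y k g = 1
    · simp only [h, dif_pos]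
      exact (hZ g).2.1 ⟨k, h⟩
    · simp only [h, dif_neg, not_false_eq_true, sum_const, card_univ, nsmul_eq_mul]
      field_simp
  · rw [← h2 j g.1, Fintype.card_prod, Nat.cast_mul, mul_assoc]
    congr 1
    rw [← Fintype.sum_subtype_add_sum_subtype (fun k => Y k g.1 = 1),
      ← Fintype.sum_subtype_add_sum_subtype (fun k => Y k g.1 = 1) fun k => Y k g.1 * w k j,
      mul_add]
    congr 1
    · have := (hZ g.1).2.2.1 j g.2
      rw [sum_congr rfl fun (k : {k // Y k g.1 = 1}) _ => show _ = Z g.1 k g.2 * w k j by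
        simp only [dif_pos k.2], this]
      exact sum_congr rfl fun k _ => by rw [k.2, one_mul]
    · rw [mul_sum]
      refine sum_congr rfl fun k _ => ?_
      simp only [k.2, dif_neg, not_false_eq_true]
      field_simp
  · refine ((hZ g.1).2.2.2 g.2).trans (card_le_card_of_injOn Subtype.val (fun k hk => ?_)
      Subtype.val_injective.injOn)
    simp only [coe_filter, mem_univ, true_and, Set.mem_ofPred_eq] at hk ⊢
    simp only [k.2, dif_pos, Subtype.coe_eta]
    exact hk

theorem good_all (r : ℕ) : 0 < r → ∀ (ι : Type) [Fintype ι] (w : ι → Fin m → ℝ) (q : ℕ),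
    r * q + m * (r - 1) ≤ Fintype.card ι → ∃ X : ι → Fin r → ℝ, Good w q X := by
  induction r using induction_on_primes with
  | zero => exact fun h => absurd h (lt_irrefl 0)
  | one =>
    intro _ ι _ w q h
    exact ⟨fun _ _ => 1, fun _ _ => zero_le_one, fun _ => by simp, fun j c => by simp,
      fun c => by simpa using h⟩
  | prime_mul p a hp ih =>
    intro h ι _ w q hq
    classical
    have ha : 0 < a := Nat.pos_of_mul_pos_left h
    obtain ⟨Y, hY⟩ := good_prime hp w (q := a * q + m * (a - 1)) (by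
      obtain ⟨a, rfl⟩ : ∃ b, a = b + 1 := ⟨a - 1, by omega⟩
      obtain ⟨p, rfl⟩ : ∃ b, p = b + 1 := ⟨p - 1, by have := hp.pos; omega⟩
      have : (p + 1) * (a + 1) - 1 = p * a + p + a := by
        rw [show (p + 1) * (a + 1) = p * a + p + a + 1 by ring]; rfl
      rw [this] at hq
      simp only [Nat.add_sub_cancel]
      refine le_trans (le_of_eq ?_) hq
      ring)
    have : ∀ g, ∃ Z : {k // Y k g = 1} → Fin a → ℝ, Good (fun k => w k.1) q Z := fun g =>
      ih ha _ _ q (by rw [Fintype.card_subtype]; exact hY.2.2.2 g)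
    choose Z hZ using this
    have : Nonempty (Fin a) := ⟨⟨0, ha⟩⟩
    obtain ⟨X, hX⟩ := good_mul hY Z hZ
    exact ⟨_, Good.equiv (Equiv.refl ι) finProdFinEquiv.symm hX⟩

theorem move {ι κ : Type} [Fintype ι] [Fintype κ] {w : ι → Fin m → ℝ} {q : ℕ} {X : ι → κ → ℝ}
    (h : Good w q X) (D : ι → κ → ℝ) (ha : ∀ k, ∑ c, D k c = 0)
    (hb : ∀ j c, ∑ k, D k c * w k j = 0) (hc : ∀ k c, D k c ≠ 0 → X k c ≠ 0 ∧ X k c ≠ 1)
    (hd : ∃ k c, D k c < 0) : ∃ X', Good w q X' ∧
      (univ.filter fun u : ι × κ => X' u.1 u.2 ≠ 0).card <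
        (univ.filter fun u : ι × κ => X u.1 u.2 ≠ 0).card := by
  classical
  obtain ⟨h0, h1, h2, h3⟩ := h
  obtain ⟨k1, c1, hd⟩ := hd
  obtain ⟨u, hu, hmin⟩ := exists_min_image (univ.filter fun u : ι × κ => D u.1 u.2 < 0)
    (fun u => X u.1 u.2 / -D u.1 u.2) ⟨(k1, c1), by simpa using hd⟩
  have hu := (mem_filter.1 hu).2
  set t := X u.1 u.2 / -D u.1 u.2 with ht
  have t0 : 0 ≤ t := div_nonneg (h0 _ _) (by linarith)
  refine ⟨fun k c => X k c + t * D k c, ⟨fun k c => ?_, fun k => ?_, fun j c => ?_, fun c => ?_⟩,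
    card_lt_card ⟨fun v hv => ?_, fun hs => ?_⟩⟩
  · rcases le_or_gt 0 (D k c) with e | e
    · exact add_nonneg (h0 _ _) (mul_nonneg t0 e)
    · have := hmin (k, c) (by simpa using e)
      rw [le_div_iff₀ (by simpa using e)] at this
      simp only at this ⊢
      linarith
  · rw [sum_add_distrib, ← mul_sum, ha, h1]; simp
  · rw [← h2 j c]
    congr 1
    simp only [add_mul, mul_assoc, sum_add_distrib, ← mul_sum, hb, mul_zero, add_zero]
  · refine (h3 c).trans (card_le_card fun k hk => ?_)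
    have hk := (mem_filter.1 hk).2
    have : D k c = 0 := by_contra fun e => (hc k c e).2 hk
    simp [hk, this]
  · simp only [mem_filter, mem_univ, true_and] at hv ⊢
    intro e
    have : D v.1 v.2 = 0 := by_contra fun e' => (hc _ _ e').1 e
    exact hv (by simp [e, this])
  · have := hs (mem_filter.2 ⟨mem_univ u, (hc _ _ hu.ne).1⟩)
    refine (mem_filter.1 this).2 ?_
    have := hu.ne
    simp only [ht]
    field_simp
    ring

theorem reduce {ι κ : Type} [Fintype ι] [Fintype κ] {w : ι → Fin m → ℝ} {q : ℕ} (s : ℕ) :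
    ∀ X : ι → κ → ℝ, Good w q X → (univ.filter fun u : ι × κ => X u.1 u.2 ≠ 0).card = s →
      ∃ X' : ι → κ → ℝ, Good w q X' ∧
        (univ.filter fun k => ∀ c, X' k c ≠ 1).card ≤ (Fintype.card κ - 1) * m := by
  classical
  induction s using Nat.strong_induction_on with
  | _ s ih =>
  intro X hX hs
  by_cases hle : (univ.filter fun k => ∀ c, X k c ≠ 1).card ≤ (Fintype.card κ - 1) * m
  · exact ⟨X, hX, hle⟩
  have two : ∀ k : {k // ∀ c, X k c ≠ 1}, ∃ u : κ × κ, u.1 ≠ u.2 ∧ X k u.1 ≠ 0 ∧ X k u.2 ≠ 0 := by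
    intro k
    have e1 := hX.2.1 k
    obtain ⟨c1, -, hc1⟩ := exists_ne_zero_of_sum_ne_zero (e1.trans_ne one_ne_zero)
    by_contra hn
    push Not at hn
    rw [sum_eq_single c1 (fun c _ hc => hn (c1, c) (Ne.symm hc) hc1) (by simp)] at e1
    exact k.2 c1 e1
  choose u hu using two
  have hne : (univ.filter fun k => ∀ c, X k c ≠ 1).Nonempty := card_pos.1 (by omega)
  obtain ⟨k0, hk0⟩ := hne
  let c0 : κ := (u ⟨k0, (mem_filter.1 hk0).2⟩).1
  let d : {k // ∀ c, X k c ≠ 1} → κ → ℝ := fun k c =>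
    (if c = (u k).1 then 1 else 0) - if c = (u k).2 then 1 else 0
  let v : {k // ∀ c, X k c ≠ 1} → {c // c ≠ c0} × Fin m → ℝ := fun k z => d k z.1 * w k z.2
  have hdep : ¬ LinearIndependent ℝ v := fun h => hle (by
    have := h.fintype_card_le_finrank
    rw [Fintype.card_subtype, Module.finrank_fintype_fun_eq_card, Fintype.card_prod,
      Fintype.card_fin, Fintype.card_subtype_compl, Fintype.card_subtype_eq] at this
    exact this)
  obtain ⟨g, hg, k1, hk1⟩ := Fintype.not_linearIndependent_iff.1 hdep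
  let D : ι → κ → ℝ := fun k c => if h : ∀ c, X k c ≠ 1 then g ⟨k, h⟩ * d ⟨k, h⟩ c else 0
  have ha : ∀ k, ∑ c, D k c = 0 := by
    intro k
    by_cases h : ∀ c, X k c ≠ 1
    · simp only [D, dif_pos h, ← mul_sum, d, sum_sub_distrib, sum_ite_eq', mem_univ, if_true,
        sub_self, mul_zero]
    · simp only [D, dif_neg h, sum_const_zero]
  have hb' : ∀ j c, c ≠ c0 → ∑ k, D k c * w k j = 0 := by
    intro j c hc
    have := congrFun hg (⟨c, hc⟩, j)
    simp only [Finset.sum_apply, Pi.smul_apply, smul_eq_mul, v, Pi.zero_apply] at this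
    rw [← Fintype.sum_subtype_add_sum_subtype (fun k => ∀ c, X k c ≠ 1), ← this,
      sum_eq_zero (s := (univ : Finset {k // ¬ ∀ c, X k c ≠ 1})) fun k _ => by
        simp only [D, dif_neg k.2, zero_mul], add_zero]
    exact sum_congr rfl fun k _ => by simp only [D, dif_pos k.2, Subtype.coe_eta, mul_assoc]
  have hb : ∀ j c, ∑ k, D k c * w k j = 0 := by
    intro j c
    by_cases hc : c = c0
    · have : ∑ c, ∑ k, D k c * w k j = 0 := by
        rw [sum_comm]
        exact sum_eq_zero fun k _ => by rw [← sum_mul, ha, zero_mul]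
      rw [sum_eq_single c0 (fun c _ hc => hb' j c hc) (by simp)] at this
      rw [hc, this]
    · exact hb' j c hc
  obtain ⟨X', hX', hlt⟩ := move hX D ha hb (by
    intro k c hD
    by_cases h : ∀ c, X k c ≠ 1
    · refine ⟨?_, h c⟩
      simp only [D, dif_pos h, d] at hD
      by_cases e1 : c = (u ⟨k, h⟩).1
      · rw [e1]; exact (hu ⟨k, h⟩).2.1
      · by_cases e2 : c = (u ⟨k, h⟩).2
        · rw [e2]; exact (hu ⟨k, h⟩).2.2
        · simp [e1, e2] at hD
    · simp [D, dif_neg h] at hD) (by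
    rcases lt_or_gt_of_ne hk1 with e | e
    · refine ⟨k1, (u k1).1, ?_⟩
      simpa [D, dif_pos k1.2, d, (hu k1).1] using e
    · refine ⟨k1, (u k1).2, ?_⟩
      simpa [D, dif_pos k1.2, d, (hu k1).1.symm] using e)
  exact ih _ (hs ▸ hlt) X' hX' rfl

theorem lp (r : ℕ) (hr : 0 < r) {n : ℕ} (w : Fin n → Fin m → ℝ) (q : ℕ)
    (h : q = 0 ∨ r * q + m * (r - 1) ≤ n) : ∃ X : Fin n → Fin r → ℝ, Good w q X ∧
      (univ.filter fun k => ∀ c, X k c ≠ 1).card ≤ (r - 1) * m := by
  have : ∃ X : Fin n → Fin r → ℝ, Good w q X := by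
    rcases h with h | h
    · have : (r : ℝ) ≠ 0 := by positivity
      refine ⟨fun _ _ => 1 / r, fun _ _ => by positivity, fun _ => by simp [this], fun j c => ?_,
        fun c => by simp [h]⟩
      rw [← mul_sum, Fintype.card_fin]
      field_simp
    · exact good_all r hr _ w q (by simpa using h)
  obtain ⟨X, hX⟩ := this
  simpa using reduce _ X hX rfl

end Pool.Agent.H.MP_2806c7_co
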