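import Pool.Agent.H.MP_2806c7_co.B

namespace Pool.Agent.H.MP_2806c7_co

open Pool.Agent.Lib.helper28.Zp MeasureTheory Set

variable {m : ℕ}

theorem half_real (ν : Fin m → Measure ℝ) [∀ j, IsFiniteMeasure (ν j)]
    [∀ j, NullSingletonClass (ν j)] :
    ∃ A : Set ℝ, MeasurableSet A ∧ ∀ j, 2 * (ν j).real A = (ν j).real (Ioc 0 1) := by
  let F : Fin m → ℝ → ℝ := fun j u => ∫ _ in (0 : ℝ)..u, (1 : ℝ) ∂ν j
  have hi : ∀ j a b, IntervalIntegrable (fun _ => (1 : ℝ)) (ν j) a b := fun j a b =>
    intervalIntegrable_const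
  have Fc : ∀ j, Continuous (F j) := fun j => intervalIntegral.continuous_primitive (hi j) 0
  have Fs : ∀ j a b, a ≤ b → F j b - F j a = (ν j).real (Ioc a b) := by
    intro j a b hab
    simp only [F]
    rw [intervalIntegral.integral_interval_sub_left (hi j _ _) (hi j _ _),
      intervalIntegral.integral_of_le hab]
    simp
  obtain ⟨x, hx, hf⟩ := bu (p := 2) Nat.prime_two (m := m) (n := m) (by simp)
    (fun x j c => T (F j) x c) (Continuous.continuousOn (continuous_pi fun j =>
      continuous_pi fun c => T_cont (Fc j) c)) (fun x _ j c => T_sh _ _ _)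
  refine ⟨⋃ i : Fin (m + 1), Ioc (lo x i) (lo x i + x (i, 0)),
    MeasurableSet.iUnion fun i => measurableSet_Ioc, fun j => ?_⟩
  have hle : ∀ i : Fin (m + 1), lo x i + x (i, 0) ≤ lo x (i + 1) := fun i => by
    rw [lo_succ]
    exact add_le_add le_rfl (Finset.single_le_sum (f := fun c => x (i, c))
      (fun c _ => hx.1 _) (Finset.mem_univ _))
  have hd : Pairwise (Function.onFun Disjoint fun i : Fin (m + 1) =>
      Ioc (lo x i) (lo x i + x (i, 0))) := by
    refine (pairwise_disjoint_on _).2 fun a b hab => ?_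
    refine Set.disjoint_left.2 fun t h1 h2 => ?_
    have : lo x (a + 1) ≤ lo x b := lo_mono hx hab
    have := hle a
    linarith [h1.2, h2.1]
  rw [measureReal_iUnion_fintype hd (fun i => measurableSet_Ioc), ← Fs j 0 1 zero_le_one,
    ← sum_T (F j) hx, Finset.sum_congr rfl fun c _ => hf j c 0, Finset.sum_const,
    Finset.card_univ, ZMod.card, nsmul_eq_mul, Nat.cast_ofNat, T]
  congr 1
  exact Finset.sum_congr rfl fun i _ => (Fs j _ _ (le_add_of_nonneg_right (hx.1 _))).symm

variable (μ : Fin m → Measure unitInterval) [∀ j, IsFiniteMeasure (μ j)]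
  [∀ j, NullSingletonClass (μ j)]

theorem half {B : Set unitInterval} (hB : MeasurableSet B) :
    ∃ A ⊆ B, MeasurableSet A ∧ ∀ j, 2 * (μ j).real A = (μ j).real B := by
  let ν : Fin m → Measure ℝ := fun j => ((μ j).restrict B).map Subtype.val
  have hν : ∀ j s, MeasurableSet s → ν j s = μ j (Subtype.val ⁻¹' s ∩ B) := fun j s hs => by
    simp only [ν]
    rw [Measure.map_apply measurable_subtype_coe hs,
      Measure.restrict_apply (measurable_subtype_coe hs)]
  have : ∀ j, NullSingletonClass (ν j) := fun j => ⟨fun x => by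
    rw [hν j _ (measurableSet_singleton x)]
    exact measure_mono_null inter_subset_left
      ((subsingleton_singleton.preimage Subtype.val_injective).measure_zero _)⟩
  obtain ⟨A, hA, h⟩ := half_real ν
  refine ⟨Subtype.val ⁻¹' A ∩ B, inter_subset_right, (measurable_subtype_coe hA).inter hB,
    fun j => ?_⟩
  have := h j
  simp only [Measure.real] at this ⊢
  rw [hν j _ hA, hν j _ measurableSet_Ioc] at this
  rw [this]
  congr 1
  have e : (Subtype.val ⁻¹' Ioc (0 : ℝ) 1 ∩ B : Set unitInterval) = B \ {0} := by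
    ext t
    simp only [mem_inter_iff, mem_preimage, mem_Ioc, mem_sdiff, mem_singleton_iff]
    constructor
    · rintro ⟨⟨h1, -⟩, h2⟩
      exact ⟨h2, fun e => by simp [e] at h1⟩
    · rintro ⟨h1, h2⟩
      exact ⟨⟨lt_of_le_of_ne t.2.1 fun e => h2 (Subtype.ext e.symm), t.2.2⟩, h1⟩
  rw [e, measure_sdiff_null (measure_singleton _)]

theorem theta (W : Fin m → ℝ) {B : Set unitInterval} (hB : MeasurableSet B) {a b : ℝ}
    (hb : ∀ j, (μ j).real B = b * W j) (h0 : 0 ≤ a) (h1 : a ≤ b) :
    ∃ A ⊆ B, MeasurableSet A ∧ ∀ j, (μ j).real A = a * W j := by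
  let P : (Set unitInterval × Set unitInterval) × ℝ × ℝ → Prop := fun s =>
    MeasurableSet s.1.1 ∧ MeasurableSet s.1.2 ∧ s.1.1 ⊆ s.1.2 ∧ s.2.1 ≤ a ∧ a ≤ s.2.2 ∧
      ∀ j, (μ j).real s.1.1 = s.2.1 * W j ∧ (μ j).real s.1.2 = s.2.2 * W j
  have step : ∀ s : {s // P s}, ∃ t : {s // P s}, s.1.1.1 ⊆ t.1.1.1 ∧ t.1.1.2 ⊆ s.1.1.2 ∧
      t.1.2.2 - t.1.2.1 = (s.1.2.2 - s.1.2.1) / 2 := by
    rintro ⟨⟨⟨A, C⟩, u, v⟩, hA, hC, hAC, hu, hv, hm⟩
    simp only at hA hC hAC hu hv hm
    obtain ⟨H, hH, mH, eH⟩ := half μ (hC.diff hA)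
    have hs : A ∪ H ⊆ C := union_subset hAC (hH.trans sdiff_subset)
    have e : ∀ j, (μ j).real (A ∪ H) = (u + v) / 2 * W j := by
      intro j
      rw [measureReal_union (disjoint_sdiff_right.mono_right hH) mH]
      have := eH j
      rw [measureReal_sdiff hAC hA, (hm j).1, (hm j).2] at this
      rw [(hm j).1]
      linarith
    rcases le_total a ((u + v) / 2) with h | h
    · exact ⟨⟨((A, A ∪ H), u, (u + v) / 2), hA, hA.union mH, subset_union_left, hu, h,
        fun j => ⟨(hm j).1, e j⟩⟩, subset_rfl, hs, by simp only; ring⟩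
    · exact ⟨⟨((A ∪ H, C), (u + v) / 2, v), hA.union mH, hC, hs, h, hv,
        fun j => ⟨e j, (hm j).2⟩⟩, subset_union_left, subset_rfl, by simp only; ring⟩
  choose f hf using step
  let s0 : {s // P s} := ⟨((∅, B), 0, b), MeasurableSet.empty, hB, empty_subset _, h0, h1,
    fun j => ⟨by simp, hb j⟩⟩
  let s : ℕ → {s // P s} := fun n => f^[n] s0
  have hs : ∀ n, s (n + 1) = f (s n) := fun n => Function.iterate_succ_apply' f n s0
  have mA : Monotone fun n => (s n).1.1.1 := monotone_nat_of_le_succ fun n => by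
    rw [hs]; exact (hf _).1
  have mC : ∀ n, (s n).1.1.2 ⊆ B := fun n => by
    induction n with
    | zero => exact subset_rfl
    | succ n ih => rw [hs]; exact (hf _).2.1.trans ih
  have gap : ∀ n, (s n).1.2.2 - (s n).1.2.1 = b * (1 / 2) ^ n := fun n => by
    induction n with
    | zero => simp [s, s0]
    | succ n ih => rw [hs, (hf _).2.2, ih]; ring
  have lim : Filter.Tendsto (fun n => (s n).1.2.1) Filter.atTop (nhds a) := by
    have h2 : Filter.Tendsto (fun n : ℕ => a - b * (1 / 2 : ℝ) ^ n) Filter.atTop (nhds a) := by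
      simpa using ((tendsto_pow_atTop_nhds_zero_of_lt_one (r := (1 / 2 : ℝ)) (by norm_num)
        (by norm_num)).const_mul b).const_sub a
    refine tendsto_of_tendsto_of_tendsto_of_le_of_le h2 tendsto_const_nhds (fun n => ?_)
      fun n => (s n).2.2.2.2.1
    have := (s n).2.2.2.2.2.1
    have := gap n
    simp only
    linarith
  refine ⟨⋃ n, (s n).1.1.1, iUnion_subset fun n => (s n).2.2.2.1.trans (mC n),
    MeasurableSet.iUnion fun n => (s n).2.1, fun j => ?_⟩
  have t1 := (ENNReal.tendsto_toReal (measure_ne_top (μ j) _)).comp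
    (tendsto_measure_iUnion_atTop (μ := μ j) mA)
  refine tendsto_nhds_unique t1 ((lim.mul_const (W j)).congr fun n => ?_)
  exact ((s n).2.2.2.2.2.2 j).1.symm

theorem parts {κ : Type} (W : Fin m → ℝ) (x : κ → ℝ) (hx : ∀ c, 0 ≤ x c) {s : Finset κ}
    (hs : s.Nonempty) : ∀ B : Set unitInterval, MeasurableSet B →
      (∀ j, (μ j).real B = (∑ c ∈ s, x c) * W j) → ∃ A : κ → Set unitInterval,
        (∀ c, MeasurableSet (A c)) ∧ (∀ c ∈ s, ∀ c' ∈ s, c ≠ c' → Disjoint (A c) (A c')) ∧
        ⋃ c ∈ s, A c = B ∧ ∀ c ∈ s, ∀ j, (μ j).real (A c) = x c * W j := by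
  classical
  induction hs using Finset.Nonempty.cons_induction with
  | singleton a =>
    intro B hB h
    refine ⟨fun _ => B, fun _ => hB, fun c hc c' hc' e => ?_, by simp, fun c hc j => ?_⟩
    · exact absurd ((Finset.mem_singleton.1 hc).trans (Finset.mem_singleton.1 hc').symm) e
    · rw [h, Finset.sum_singleton, Finset.mem_singleton.1 hc]
  | cons a s ha hs ih =>
    intro B hB h
    obtain ⟨A0, hA0, m0, e0⟩ := theta μ W hB h (hx a) (by
      rw [Finset.sum_cons]; exact le_add_of_nonneg_right (Finset.sum_nonneg fun c _ => hx c))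
    obtain ⟨A, mA, dA, uA, eA⟩ := ih (B \ A0) (hB.diff m0) fun j => by
      rw [measureReal_sdiff hA0 m0, h, e0, Finset.sum_cons]; ring
    have hne : ∀ c ∈ s, c ≠ a := fun c hc e => ha (e ▸ hc)
    have hsub : ∀ c ∈ s, Disjoint A0 (A c) := fun c hc =>
      disjoint_sdiff_right.mono_right (uA ▸ subset_biUnion_of_mem (u := A) hc)
    refine ⟨fun c => if c = a then A0 else A c, fun c => ?_, fun c hc c' hc' e => ?_, ?_,
      fun c hc j => ?_⟩
    · dsimp only
      split_ifs
      exacts [m0, mA c]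
    · rcases Finset.mem_cons.1 hc with h1 | h1 <;> rcases Finset.mem_cons.1 hc' with h2 | h2
      · exact absurd (h1.trans h2.symm) e
      · simpa [h1, hne _ h2] using hsub _ h2
      · simpa [h2, hne _ h1] using (hsub _ h1).symm
      · simpa [hne _ h1, hne _ h2] using dA c h1 c' h2 e
    · rw [Finset.cons_eq_insert, Finset.set_biUnion_insert, if_pos rfl,
        iUnion₂_congr fun c hc => if_neg (hne c hc), uA, union_sdiff_cancel hA0]
    · rcases Finset.mem_cons.1 hc with rfl | hc
      · simpa using e0 j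
      · simpa [hne _ hc] using eA c hc j

theorem part {r : ℕ} (x : Fin r → ℝ) (hx : ∀ c, 0 ≤ x c) (h1 : ∑ c, x c = 1) :
    ∃ A : Fin r → Set unitInterval, (∀ c, MeasurableSet (A c)) ∧
      (∀ c c', c ≠ c' → Disjoint (A c) (A c')) ∧ ⋃ c, A c = univ ∧
      (∀ c j, (μ j).real (A c) = x c * (μ j).real univ) ∧ ∀ c, x c = 1 → A c = univ := by
  classical
  by_cases h : ∃ c, x c = 1
  · obtain ⟨c0, h0⟩ := h
    have hz : ∀ c, c ≠ c0 → x c = 0 := by
      intro c hc
      rw [← Finset.add_sum_erase _ _ (Finset.mem_univ c0), h0, add_eq_left] at h1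
      exact (Finset.sum_eq_zero_iff_of_nonneg fun c _ => hx c).1 h1 c (by simp [hc])
    refine ⟨fun c => if c = c0 then univ else ∅, fun c => ?_, fun c c' e => ?_, ?_,
      fun c j => ?_, fun c hc => ?_⟩
    · dsimp only
      split_ifs <;> simp
    · by_cases e1 : c = c0
      · have : c' ≠ c0 := fun e2 => e (e1.trans e2.symm)
        simp [this]
      · simp [e1]
    · exact eq_univ_of_forall fun t => mem_iUnion.2 ⟨c0, by simp⟩
    · by_cases e1 : c = c0
      · simp [e1, h0]
      · simp [e1, hz c e1]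
    · have : c = c0 := by_contra fun e => by simp [hz c e] at hc
      simp [this]
  · obtain ⟨c1, -, -⟩ := Finset.exists_ne_zero_of_sum_ne_zero (h1.trans_ne one_ne_zero)
    obtain ⟨A, mA, dA, uA, eA⟩ := parts μ (fun j => (μ j).real univ) x hx
      (s := Finset.univ) ⟨c1, Finset.mem_univ _⟩ univ MeasurableSet.univ fun j => by
        rw [h1, one_mul]
    exact ⟨A, mA, fun c c' e => dA c (Finset.mem_univ _) c' (Finset.mem_univ _) e,
      by simpa using uA, fun c j => eA c (Finset.mem_univ _) j, fun c hc => absurd ⟨c, hc⟩ h⟩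

end Pool.Agent.H.MP_2806c7_co
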